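import Pool.Agent.Zk50.SD.Geo

/-!
# Self-dual Chow-Kunneth decompositions from the first half of the cohomology
-/

open CategoryTheory AlgebraicGeometry

universe u v w

namespace Pool.Agent.Zk50.SD

open Pool.Agent.H914 Pool.Agent.H914.VarClass Pool.Agent.H914.VarClass.Obj Pool.Agent.W492.BB
  Pool.Agent.W550.Corr Pool.Agent.TH133 Pool.Agent.Y107

set_option linter.unusedSectionVars false

section fam

variable {A B : Type*} [Ring A] [Algebra ℚ A] [Ring B] {s : A →+ A} {φ : A →+* B}

/-- The family version for a finite index type. -/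
theorem exists_family' (hs : AntiInv s) (hφs : ∀ x, φ x = 0 → φ (s x) = 0) {ι : Type*}
    [Fintype ι] (p : ι → A) (h1 : ∀ i, p i * p i = p i ∧ NilAt φ (p i))
    (h2 : ∀ i j, i ≠ j → φ (p i * p j) = 0)
    (h3 : ∀ i j, φ (s (p i) * p j) = 0 ∧ φ (p i * s (p j)) = 0) :
    ∃ π : ι → A, (∀ i, π i * π i = π i ∧ φ (π i) = φ (p i)) ∧
      (∀ i j, i ≠ j → π i * π j = 0) ∧ (∀ i j, s (π i) * π j = 0 ∧ π i * s (π j) = 0) := by
  classical
  obtain ⟨e⟩ : Nonempty (ι ≃ Fin (Fintype.card ι)) := ⟨Fintype.equivFin ι⟩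
  obtain ⟨p', hp'⟩ : ∃ p' : ℕ → A, p' = fun m => if h : m < Fintype.card ι then
    p (e.symm ⟨m, h⟩) else 0 := ⟨_, rfl⟩
  have hp : ∀ (m : ℕ) (h : m < Fintype.card ι), p' m = p (e.symm ⟨m, h⟩) := by
    intro m h
    rw [hp']
    exact dif_pos h
  obtain ⟨π, i1, i2, i3⟩ := exists_family hs hφs (Fintype.card ι) 1 p' (mul_one 1) hs.one
    (fun i hi => by
      rw [hp i hi]
      exact ⟨(h1 _).1, one_mul _, mul_one _, (h1 _).2⟩)
    (fun i hi j hj hij => by
      rw [hp i hi, hp j hj]
      apply h2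
      intro h
      apply hij
      have := e.symm.injective h
      exact Fin.mk.inj_iff.1 this)
    (fun i hi j hj => by
      rw [hp i hi, hp j hj]
      exact h3 _ _)
  refine ⟨fun i => π (e i), ?_, ?_, ?_⟩
  · intro i
    obtain ⟨j1, -, -, j2⟩ := i1 (e i) (e i).2
    refine ⟨j1, ?_⟩
    rw [j2, hp _ (e i).2]
    congr 2
    exact e.symm_apply_apply i
  · intro i j hij
    refine i2 _ (e i).2 _ (e j).2 ?_
    intro h
    exact hij (e.injective (Fin.ext h))
  · intro i j
    exact i3 _ (e i).2 _ (e j).2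

end fam

variable {k : Type u} [Field k] {𝒱 : VarClass k} {C : TheoryData.{u, v, 0} 𝒱 ℚ}
  [hC : IsChowProj C] {K : Type w} [Field K] {H : WeilTheoryData.{u, v, w} C K}
  [hH : IsWeilProj H] {X Y : 𝒱.Obj}

include hC hH

/-- The degree zero part is nil covered. -/
theorem nilCovered_zero (X : 𝒱.Obj) : NilCovered H X 0 := by
  obtain ⟨a, ha, h1, h2⟩ := hC.exists_deg_one X
  have hdeg : HasDegree C (1 * a) 1 := by
    intro Z
    rw [one_mul, one_smul]
    exact ⟨h2 Z, h1 Z⟩
  obtain ⟨p, hp⟩ : ∃ p, p = C.ext a (1 : C.A X) := ⟨_, rfl⟩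
  have hpp : C.comp p p = p := by
    rw [hp, comp_ext_ext hdeg, one_smul]
  have hpm : p ∈ C.gr (X.prod X) X.dim := by
    have := ext_mem' ha (C.one_mem X)
    rwa [add_zero, ← hp] at this
  have hact : ∀ (m : ℤ) (x : H.A X), x ∈ H.gr X m →
      H.act (H.cl p) x = if m = 0 then x else 0 := by
    intro m x hx
    have e1 : H.act (H.cl p) x = H.push (snd X X) (H.pull (fst X X) (H.cl a * x)) := by
      rw [TheoryData.act_apply, hp, TheoryData.ext, map_one, mul_one, H.cl_pull,
        map_mul (H.pull (fst X X))]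
    split_ifs with hm
    · subst hm
      obtain ⟨c, rfl⟩ := hH.gr_zero X x hx
      have e0 : C.push (snd X X) (C.pull (fst X X) a) = 1 := h2 X
      rw [e1, mul_smul_comm, mul_one, map_smul, map_smul, ← H.cl_pull, ← H.cl_push, e0, map_one]
    · have hz : H.cl a * x = 0 := by
        rcases lt_or_gt_of_ne hm with h | h
        · rw [H.gr_neg X m h] at hx
          rw [(Submodule.mem_bot _).1 hx, mul_zero]
        · have h3 := H.mul_mem (H.cl_mem ha) hx
          rw [gr_top H (by omega)] at h3
          exact (Submodule.mem_bot _).1 h3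
      rw [e1, hz, map_zero, map_zero]
  refine ⟨1, fun _ => H.act (H.cl p), fun _ => ?_, ?_, ?_⟩
  · refine ⟨X, 0, p, dg C X, dg C X, hpm, hpp, ?_, ?_, ?_, ?_⟩
    · intro γ hγ hγ0
      refine ⟨1, ?_⟩
      have e2 : C.comp p γ = 0 := by
        have e3 : C.comp p γ = C.ext a (C.act γ 1) := by
          rw [comp_eq_extR, hp]
          exact TheoryData.extR_ext C γ (fun c => ch_comm C _ _) a 1
        obtain ⟨q, hq⟩ := hC.gr_zero X (C.act γ 1) (act_mem0 C hγ (C.one_mem X))
        have e4 : H.cl (C.act γ 1) = 0 := by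
          have e5 : H.cl (C.act γ 1) = H.act (H.cl γ) (H.cl 1) := by
            rw [TheoryData.act_apply, TheoryData.act_apply, H.cl_push, map_mul, H.cl_pull]
          rw [e5, hγ0, TheoryData.act_zero]
        have e6 : q = 0 := by
          by_contra hne
          have e7 : H.cl (1 : C.A X) = 0 := by
            have e8 : (1 : C.A X) = algebraMap ℚ (C.A X) q⁻¹ * C.act γ 1 := by
              rw [hq, Algebra.algebraMap_eq_smul_one, smul_mul_smul_comm, inv_mul_cancel₀ hne,
                one_smul, one_mul]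
            rw [e8, map_mul, e4, mul_zero]
          rw [map_one] at e7
          exact hH.one_ne_zero X e7
        rw [e3, hq, e6, zero_smul, TheoryData.ext_zero_right]
      have e9 : corPow C (C.comp (C.comp p γ) p) 1 = C.comp (C.comp p γ) p := dg_comp C _
      rw [e9, e2, zero_comp]
    · rw [add_zero]
      exact dg_mem C X
    · rw [sub_zero]
      exact dg_mem C X
    · intro x
      rw [comp_dg, dg_comp]
  · intro j l x
    have : j = l := Subsingleton.elim _ _
    rw [if_pos this]
    change H.act (H.cl p) (H.act (H.cl p) x) = H.act (H.cl p) x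
    rw [← actH_comp, hpp]
  · intro m x hx
    rw [Finset.sum_const, Finset.card_univ, Fintype.card_fin, one_smul]
    exact hact m x hx

/-- The transpose of a correspondence acting as the projection onto `H^i(X)`. -/
lemma act_tp_of_act {σ : C.A (X.prod X)} {i : ℕ} (hi : i ≤ 2 * X.dim)
    (hσ : ∀ (m : ℤ) (x : H.A X), x ∈ H.gr X m → H.act (H.cl σ) x = if m = i then x else 0)
    (m : ℤ) (b : H.A X) (hb : b ∈ H.gr X m) :
    H.act (H.cl (tp C σ)) b = if m = (2 * X.dim - i : ℕ) then b else 0 := by
  split_ifs with hm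
  · rw [← sub_eq_zero]
    apply H.nondeg
    have h2 : H.tr X ∘ₗ LinearMap.mulLeft K (H.act (H.cl (tp C σ)) b) =
        H.tr X ∘ₗ LinearMap.mulLeft K b := by
      apply ext_gr H
      intro n a ha
      rw [LinearMap.comp_apply, LinearMap.comp_apply, LinearMap.mulLeft_apply,
        LinearMap.mulLeft_apply, tr_act' H, hσ _ _ ha]
      split_ifs with h3
      · rfl
      · rw [mul_zero, map_zero]
        exact (tr_zero H (H.mul_mem hb ha) (by omega)).symm
    intro a
    have h3 := LinearMap.congr_fun h2 a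
    rw [LinearMap.comp_apply, LinearMap.comp_apply, LinearMap.mulLeft_apply,
      LinearMap.mulLeft_apply] at h3
    rw [sub_mul, map_sub, h3, sub_self]
  · apply H.nondeg
    have h2 : H.tr X ∘ₗ LinearMap.mulLeft K (H.act (H.cl (tp C σ)) b) = 0 := by
      apply ext_gr H
      intro n a ha
      rw [LinearMap.comp_apply, LinearMap.mulLeft_apply, tr_act' H, hσ _ _ ha,
        LinearMap.zero_apply]
      split_ifs with h3
      · exact tr_zero H (H.mul_mem hb ha) (by omega)
      · rw [mul_zero, map_zero]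
    exact fun a => LinearMap.congr_fun h2 a

/-- **The theorem**: if `H^i(X)` is nil covered for `0 < i < dim X`, then `X` has a self-dual
Chow-Kunneth decomposition. -/
theorem exists_selfDual_of_nilCovered (X : 𝒱.Obj)
    (h : ∀ i, 0 < i → i < X.dim → NilCovered H X i) :
    ∃ π : ℕ → C.A (X.prod X), IsCK H X π ∧ IsSelfDual C π := by
  have h' : ∀ i : Fin X.dim, NilCovered H X i := by
    intro i
    rcases Nat.eq_zero_or_pos (i : ℕ) with h0 | h0
    · rw [h0]
      exact nilCovered_zero X
    · exact h i h0 i.2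
  choose r P hP1 hP2 hP3 using h'
  -- the projectors
  have hq : ∀ (i : Fin X.dim) (j : Fin (r i)), ∃ q : cor0 C X, q * q = q ∧
      NilAt (act0 C H X) q ∧ ∀ x, act0 C H X q x = P i j x := by
    intro i j
    apply exists_nil_projector (hP1 i j)
    intro x
    rw [hP2, if_pos rfl]
  choose q hq1 hq2 hq3 using hq
  set φ := act0 C H X with hφ
  have hqq : ∀ (i : Fin X.dim) (j l : Fin (r i)), φ (q i j) * φ (q i l) =
      if j = l then φ (q i j) else 0 := by
    intro i j l
    apply LinearMap.ext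
    intro x
    rw [Module.End.mul_apply, hq3, hq3, hP2]
    split_ifs
    · rw [hq3]
    · rfl
  have hS : ∀ (i : Fin X.dim) (m : ℤ) (x : H.A X), x ∈ H.gr X m →
      (∑ j, φ (q i j)) x = if m = (i : ℕ) then x else 0 := by
    intro i m x hx
    rw [LinearMap.sum_apply, ← hP3 i m x hx]
    exact Finset.sum_congr rfl fun j _ => hq3 i j x
  have hS' : ∀ (i : Fin X.dim) (m : ℤ) (x : H.A X), x ∈ H.gr X m →
      (∑ j, φ (tr0 C X (q i j))) x = if m = (2 * X.dim - (i : ℕ) : ℕ) then x else 0 := by
    intro i m x hx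
    have h1 := act_tp_of_act (H := H) (X := X) (σ := ((∑ j, q i j : cor0 C X) : Cor C X))
      (i := i) (by omega) (fun m x hx => by
        have h2 := hS i m x hx
        rw [← map_sum] at h2
        exact h2) m x hx
    rw [← h1, ← map_sum, ← map_sum]
    rfl
  have hF1 : ∀ i j, φ (q i j) = φ (q i j) * ∑ l, φ (q i l) := by
    intro i j
    rw [Finset.mul_sum, Finset.sum_eq_single j]
    · rw [hqq, if_pos rfl]
    · intro l _ hl
      rw [hqq, if_neg (Ne.symm hl)]
    · intro h
      exact absurd (Finset.mem_univ j) h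
  have hF2 : ∀ i j, φ (q i j) = (∑ l, φ (q i l)) * φ (q i j) := by
    intro i j
    rw [Finset.sum_mul, Finset.sum_eq_single j]
    · rw [hqq, if_pos rfl]
    · intro l _ hl
      rw [hqq, if_neg hl]
    · intro h
      exact absurd (Finset.mem_univ j) h
  have hker : ∀ x, φ x = 0 → φ (tr0 C X x) = 0 := fun x hx => act0_tr0 hx
  have hqq' : ∀ (i : Fin X.dim) (j l : Fin (r i)), φ (tr0 C X (q i j)) * φ (tr0 C X (q i l)) =
      if j = l then φ (tr0 C X (q i j)) else 0 := by
    intro i j l
    rw [← map_mul, ← (tr0_antiInv C X).mul]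
    split_ifs with hjl
    · subst hjl
      rw [hq1]
    · apply hker
      rw [map_mul, hqq, if_neg (Ne.symm hjl)]
  have hF1' : ∀ i j, φ (tr0 C X (q i j)) = φ (tr0 C X (q i j)) * ∑ l, φ (tr0 C X (q i l)) := by
    intro i j
    rw [Finset.mul_sum, Finset.sum_eq_single j]
    · rw [hqq', if_pos rfl]
    · intro l _ hl
      rw [hqq', if_neg (Ne.symm hl)]
    · intro h
      exact absurd (Finset.mem_univ j) h
  have hF2' : ∀ i j, φ (tr0 C X (q i j)) = (∑ l, φ (tr0 C X (q i l))) * φ (tr0 C X (q i j)) := by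
    intro i j
    rw [Finset.sum_mul, Finset.sum_eq_single j]
    · rw [hqq', if_pos rfl]
    · intro l _ hl
      rw [hqq', if_neg hl]
    · intro h
      exact absurd (Finset.mem_univ j) h
  have hSS : ∀ i i' : Fin X.dim, i ≠ i' → (∑ j, φ (q i j)) * (∑ j, φ (q i' j)) = 0 := by
    intro i i' hii
    apply ext_gr H
    intro m x hx
    rw [Module.End.mul_apply, hS i' m x hx, LinearMap.zero_apply]
    split_ifs with h1
    · rw [hS i m x hx, if_neg]
      intro h2
      apply hii
      apply Fin.ext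
      omega
    · exact map_zero _
  have hSS1 : ∀ i i' : Fin X.dim, (∑ j, φ (tr0 C X (q i j))) * (∑ j, φ (q i' j)) = 0 := by
    intro i i'
    apply ext_gr H
    intro m x hx
    rw [Module.End.mul_apply, hS i' m x hx, LinearMap.zero_apply]
    split_ifs with h1
    · rw [hS' i m x hx, if_neg]
      intro h2
      have := i.2
      have := i'.2
      omega
    · exact map_zero _
  have hSS2 : ∀ i i' : Fin X.dim, (∑ j, φ (q i j)) * (∑ j, φ (tr0 C X (q i' j))) = 0 := by
    intro i i'
    apply ext_gr H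
    intro m x hx
    rw [Module.End.mul_apply, hS' i' m x hx, LinearMap.zero_apply]
    split_ifs with h1
    · rw [hS i m x hx, if_neg]
      intro h2
      have := i.2
      have := i'.2
      omega
    · exact map_zero _
  -- the family
  obtain ⟨π, i1, i2, i3⟩ := exists_family' (tr0_antiInv C X) hker
    (fun z : (Σ i : Fin X.dim, Fin (r i)) => q z.1 z.2) (fun z => ⟨hq1 _ _, hq2 _ _⟩)
    (by
      rintro ⟨i, j⟩ ⟨i', j'⟩ hne
      by_cases hii : i = i'
      · subst hii
        rw [map_mul, hqq, if_neg]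
        rintro rfl
        exact hne rfl
      · rw [map_mul, hF1, hF2 i', mul_assoc, ← mul_assoc (∑ l, φ (q i l)), hSS i i' hii, zero_mul,
          mul_zero])
    (by
      rintro ⟨i, j⟩ ⟨i', j'⟩
      constructor
      · rw [map_mul, hF1', hF2 i', mul_assoc, ← mul_assoc (∑ l, φ (tr0 C X (q i l))), hSS1,
          zero_mul, mul_zero]
      · rw [map_mul, hF1, hF2' i', mul_assoc, ← mul_assoc (∑ l, φ (q i l)), hSS2,
          zero_mul, mul_zero])
  obtain ⟨Q, hQ, hQ'⟩ : ∃ Q : ℕ → cor0 C X, (∀ i : Fin X.dim, Q i = ∑ j, π ⟨i, j⟩) ∧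
      ∀ n, X.dim ≤ n → Q n = 0 := by
    refine ⟨fun n => if h : n < X.dim then ∑ j, π ⟨⟨n, h⟩, j⟩ else 0, ?_, ?_⟩
    · intro i
      exact dif_pos i.2
    · intro n hn
      exact dif_neg (by omega)
  have hφQ : ∀ i : Fin X.dim, φ (Q i) = ∑ j, φ (q i j) := by
    intro i
    rw [hQ, map_sum]
    exact Finset.sum_congr rfl fun j _ => (i1 _).2
  have hQQ : ∀ i i' : Fin X.dim, Q i * Q i' = if i = i' then Q i else 0 := by
    intro i i'
    rw [hQ, hQ, Finset.sum_mul]
    split_ifs with hii
    · subst hii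
      apply Finset.sum_congr rfl
      intro j _
      rw [Finset.mul_sum, Finset.sum_eq_single j]
      · exact (i1 _).1
      · intro l _ hl
        apply i2
        intro h
        apply hl
        rw [Sigma.mk.inj_iff] at h
        exact (eq_of_heq h.2).symm
      · intro h
        exact absurd (Finset.mem_univ j) h
    · apply Finset.sum_eq_zero
      intro j _
      rw [Finset.mul_sum]
      apply Finset.sum_eq_zero
      intro l _
      apply i2
      intro h
      apply hii
      rw [Sigma.mk.inj_iff] at h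
      exact h.1
  have hQ1 : ∀ i i' : Fin X.dim, Q i * tr0 C X (Q i') = 0 := by
    intro i i'
    rw [hQ, hQ, Finset.sum_mul, map_sum]
    apply Finset.sum_eq_zero
    intro j _
    rw [Finset.mul_sum]
    apply Finset.sum_eq_zero
    intro l _
    exact (i3 _ _).2
  have hQ2 : ∀ i i' : Fin X.dim, tr0 C X (Q i) * Q i' = 0 := by
    intro i i'
    rw [hQ, hQ, map_sum, Finset.sum_mul]
    apply Finset.sum_eq_zero
    intro j _
    rw [Finset.mul_sum]
    apply Finset.sum_eq_zero
    intro l _
    exact (i3 _ _).1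
  refine selfDual_of_half (C := C) (H := H) (X := X) (fun n => ((Q n : cor0 C X) : Cor C X))
    (fun n => (Q n).2) ?_ ?_ ?_ ?_ ?_ ?_
  · intro n hn
    rw [hQ' n hn]
    rfl
  · intro m n
    rcases lt_or_ge m X.dim with hm | hm
    · rcases lt_or_ge n X.dim with hn | hn
      · have h1 := congrArg Subtype.val (hQQ ⟨m, hm⟩ ⟨n, hn⟩)
        refine h1.trans ?_
        by_cases hmn : m = n
        · subst hmn
          rw [if_pos rfl, if_pos rfl]
        · rw [if_neg hmn, if_neg (fun h => hmn (Fin.mk.inj_iff.1 h))]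
          rfl
      · have h0 : ((Q n : cor0 C X) : Cor C X) = 0 := by rw [hQ' n hn]; rfl
        rw [h0, mul_zero, if_neg (by omega)]
    · have h0 : ((Q m : cor0 C X) : Cor C X) = 0 := by rw [hQ' m hm]; rfl
      rw [h0, zero_mul]
      split_ifs <;> rfl
  · intro m n
    rcases lt_or_ge m X.dim with hm | hm
    · rcases lt_or_ge n X.dim with hn | hn
      · exact congrArg Subtype.val (hQ1 ⟨m, hm⟩ ⟨n, hn⟩)
      · have h0 : ((Q n : cor0 C X) : Cor C X) = 0 := by rw [hQ' n hn]; rfl
        rw [h0, map_zero, mul_zero]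
    · have h0 : ((Q m : cor0 C X) : Cor C X) = 0 := by rw [hQ' m hm]; rfl
      rw [h0, zero_mul]
  · intro m n
    rcases lt_or_ge m X.dim with hm | hm
    · rcases lt_or_ge n X.dim with hn | hn
      · exact congrArg Subtype.val (hQ2 ⟨m, hm⟩ ⟨n, hn⟩)
      · have h0 : ((Q n : cor0 C X) : Cor C X) = 0 := by rw [hQ' n hn]; rfl
        rw [h0, mul_zero]
    · have h0 : ((Q m : cor0 C X) : Cor C X) = 0 := by rw [hQ' m hm]; rfl
      rw [h0, map_zero, zero_mul]
  · intro n m a hn ha
    have h1 : φ (Q n) a = if m = n then a else 0 := by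
      have h2 := hφQ ⟨n, hn⟩
      rw [h2]
      exact hS ⟨n, hn⟩ m a ha
    exact h1
  · intro n m a hn ha
    exact act_tp_of_act (H := H) (X := X) (σ := ((Q n : cor0 C X) : Cor C X))
      (i := n) (by omega) (fun m x hx => by
        have h2 := hφQ ⟨n, hn⟩
        have h3 : φ (Q n) x = if m = n then x else 0 := by
          rw [h2]
          exact hS ⟨n, hn⟩ m x hx
        exact h3) m a ha

end Pool.Agent.Zk50.SD
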