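import Pool.Agent.Y107.SDDefs

/-!
# Nil correspondences and nil pieces of the cohomology: definitions
-/

open CategoryTheory AlgebraicGeometry

universe u v w

namespace Pool.Agent.Zk50.SD

open Pool.Agent.H914 Pool.Agent.H914.VarClass Pool.Agent.H914.VarClass.Obj Pool.Agent.W492.BB
  Pool.Agent.W550.Corr Pool.Agent.TH133 Pool.Agent.Y107

variable {k : Type u} [Field k] {𝒱 : VarClass k} {C : TheoryData.{u, v, 0} 𝒱 ℚ} {K : Type w}
  [Field K] (H : WeilTheoryData.{u, v, w} C K)

/-- The projector `p ∈ CH^(dim Y)(Y × Y)` is nil: every homologically trivial endomorphism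
`p ∘ γ ∘ p` (`γ ∈ CH^(dim Y)(Y × Y)` homologically trivial) of the Chow motive `(Y, p)` is
nilpotent. By Kimura this holds if `(Y, p)` is finite-dimensional. -/
def NilCor {Y : 𝒱.Obj} (p : C.A (Y.prod Y)) : Prop :=
  ∀ γ : C.A (Y.prod Y), C.Deg Y.dim γ → H.cl γ = 0 →
    ∃ n : ℕ, corPow C (C.comp (C.comp p γ) p) n = 0

/-- The map `P : H(X) → H(X)` factors through a nil motive: there are a Chow motive `(Y, p)` as in
`NilCor`, an integer `e` and correspondences `a : h(X) → (Y, p)(e)` and `b : (Y, p)(e) → h(X)`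
such that `b ∘ p ∘ a` acts as `P` on `H(X)`. -/
def FactorsNil (X : 𝒱.Obj) (P : H.A X → H.A X) : Prop :=
  ∃ (Y : 𝒱.Obj) (e : ℤ) (p : C.A (Y.prod Y)) (a : C.A (X.prod Y)) (b : C.A (Y.prod X)),
    C.Deg Y.dim p ∧ C.comp p p = p ∧ NilCor H p ∧ C.Deg ((X.dim : ℤ) + e) a ∧
      C.Deg ((Y.dim : ℤ) - e) b ∧ ∀ x, H.act (H.cl (C.comp (C.comp a p) b)) x = P x

/-- `H^i(X)` is nil covered: the projection of `H(X)` onto `H^i(X)` is a finite sum of mutually
orthogonal idempotent maps `P 0, …, P (r - 1)` each of which factors through a nil motive. (No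
lifting of these idempotents to Chow groups is required, and nothing is required about the nil motives
beyond `NilCor`.) -/
def NilCovered (X : 𝒱.Obj) (i : ℕ) : Prop :=
  ∃ (r : ℕ) (P : Fin r → H.A X → H.A X), (∀ j, FactorsNil H X (P j)) ∧
    (∀ j l x, P j (P l x) = if j = l then P j x else 0) ∧
    ∀ (m : ℤ) (x : H.A X), H.Deg m x → ∑ j, P j x = if m = i then x else 0

end Pool.Agent.Zk50.SD
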