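import Pool.Agent.Zk50.SD.Ring

/-!
# Lifting idempotents through nil idempotents
-/

set_option autoImplicit false

open Polynomial

namespace Pool.Agent.Zk50.SD

variable {A B : Type*} [Ring A] [Algebra ℚ A] [Ring B]

/-- The polynomial `g` with `g ≡ 0` modulo `X ^ (2 N)` and `g ≡ 1` modulo `(X - 1) ^ N`. -/
lemma exists_poly {N : ℕ} (hN : 0 < N) : ∃ g h r : ℚ[X], g = X * h ∧
    g * g - g = (X ^ 2 * (X - 1)) ^ N * r ∧ X ^ 2 * (X - 1) ∣ g - X ^ 2 := by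
  have hcop1 : IsCoprime (X : ℚ[X]) (X - 1) := ⟨1, -1, by ring⟩
  have hcop : IsCoprime ((X : ℚ[X]) ^ (2 * N)) ((X - 1) ^ N) :=
    (hcop1.pow_left).pow_right
  obtain ⟨a, b, hab⟩ := hcop
  obtain ⟨M, rfl⟩ : ∃ M, N = M + 1 := ⟨N - 1, by omega⟩
  have h1 : a * X ^ (2 * (M + 1)) = 1 - b * (X - 1) ^ (M + 1) := eq_sub_of_add_eq hab
  refine ⟨a * X ^ (2 * (M + 1)), a * X ^ (2 * M + 1), -(a * b), by ring, ?_, ?_⟩
  · calc a * X ^ (2 * (M + 1)) * (a * X ^ (2 * (M + 1))) - a * X ^ (2 * (M + 1))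
        = a * X ^ (2 * (M + 1)) * (a * X ^ (2 * (M + 1)) - 1) := by ring
      _ = a * X ^ (2 * (M + 1)) * (1 - b * (X - 1) ^ (M + 1) - 1) := by rw [← h1]
      _ = (X ^ 2) ^ (M + 1) * (X - 1) ^ (M + 1) * -(a * b) := by
        rw [← pow_mul]; ring
      _ = _ := by rw [← mul_pow]
  · apply IsCoprime.mul_dvd (hcop1.pow_left)
    · exact ⟨a * X ^ (2 * M) - 1, by ring⟩
    · refine ⟨-(b * (X - 1) ^ M) - (X + 1), ?_⟩
      rw [h1]
      ring

/-- **Lifting**: if `φ T ^ 3 = φ T ^ 2` for an element `T` of the corner of the nil idempotent `p`,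
then there are an idempotent `ε` of the corner with `φ ε = φ T ^ 2`, and a `w` with `φ w = 1`, such
that `ε w T ε = ε`. -/
theorem exists_lift {φ : A →+* B} {p T : A} (hp : NilAt φ p) (hpT : p * T = T) (hTp : T * p = T)
    (hT : φ (T * T * T) = φ (T * T)) :
    ∃ ε w : A, ε * ε = ε ∧ p * ε = ε ∧ ε * p = ε ∧ φ ε = φ (T * T) ∧ φ w = 1 ∧
      ε * w * T * ε = ε := by
  obtain ⟨D, hD⟩ : ∃ D, D = aeval T ((X : ℚ[X]) ^ 2 * (X - 1)) := ⟨_, rfl⟩
  have hD' : D = T * T * T - T * T := by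
    rw [hD, map_mul, map_pow, map_sub, map_one, aeval_X, pow_two, mul_sub, mul_one]
  have hφD : φ D = 0 := by rw [hD', map_sub, hT, sub_self]
  have hpD : p * D = D := by
    rw [hD', mul_sub, ← mul_assoc, ← mul_assoc, hpT]
  have hDp : D * p = D := by
    rw [hD', sub_mul, mul_assoc (T * T), mul_assoc T T p, hTp]
  obtain ⟨N₀, hN₀⟩ := hp D hφD
  rw [hpD, hDp] at hN₀
  obtain ⟨N, hN, hN1⟩ : ∃ N, 0 < N ∧ D ^ N = 0 := ⟨N₀ + 1, by omega, by rw [pow_succ, hN₀, zero_mul]⟩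
  obtain ⟨g, h, r, hgh, hgr, q, hq⟩ := exists_poly hN
  obtain ⟨ε, hε⟩ : ∃ ε, ε = aeval T g := ⟨_, rfl⟩
  have hεε : ε * ε = ε := by
    have h1 := congrArg (aeval T) hgr
    rw [map_sub, map_mul, map_mul, map_pow, ← hD, hN1, zero_mul, ← hε, sub_eq_zero] at h1
    exact h1
  have hεT : ε * T = T * ε := by
    have h1 := congrArg (aeval T) (mul_comm g X)
    rwa [map_mul, map_mul, aeval_X, ← hε] at h1
  have hε1 : ε = T * aeval T h := by rw [hε, hgh, map_mul, aeval_X]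
  have hε2 : ε = aeval T h * T := by rw [hε, hgh, mul_comm, map_mul, aeval_X]
  have hpε : p * ε = ε := by rw [hε1, ← mul_assoc, hpT]
  have hεp : ε * p = ε := by rw [hε2, mul_assoc, hTp]
  have hφε : φ ε = φ (T * T) := by
    rw [← sub_eq_zero, ← map_sub]
    have h1 := congrArg (aeval T) hq
    rw [map_sub, map_mul, map_pow, aeval_X, ← hD, ← hε, pow_two] at h1
    rw [h1, map_mul, hφD, zero_mul]
  obtain ⟨m, hm⟩ : ∃ m, m = ε - ε * T := ⟨_, rfl⟩
  have hφm : φ m = 0 := by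
    rw [hm, map_sub, map_mul, hφε, ← map_mul, hT, sub_self]
  have hpm : p * m = m := by rw [hm, mul_sub, ← mul_assoc, hpε]
  have hmp : m * p = m := by rw [hm, sub_mul, hεp, mul_assoc, hTp]
  have hmn : IsNilpotent m := by
    have := hp m hφm
    rwa [hpm, hmp] at this
  obtain ⟨z, hz⟩ := hmn.isUnit_one_sub
  obtain ⟨w, hw⟩ : ∃ w : A, w = (↑z⁻¹ : A) := ⟨_, rfl⟩
  have hwz : w * (1 - m) = 1 := by rw [hw, ← hz, Units.inv_mul]
  have hφw : φ w = 1 := by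
    have := congrArg φ hwz
    rw [map_mul, map_sub, map_one, hφm, sub_zero, mul_one] at this
    exact this
  have hmε : m * ε = m := by
    rw [hm, sub_mul, hεε, mul_assoc, ← hεT, ← mul_assoc, hεε]
  have hTε : T * ε = (1 - m) * ε := by rw [sub_mul, one_mul, hmε, hm, hεT]; abel
  refine ⟨ε, w, hεε, hpε, hεp, hφε, hφw, ?_⟩
  rw [mul_assoc, hTε, mul_assoc, ← mul_assoc w, hwz, one_mul, hεε]

end Pool.Agent.Zk50.SD
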