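import Pool.Agent.Zk50.SD.Defs
import Pool.Agent.Zk50.SD.Lift
import Pool.Agent.Y107.SDMul

/-!
# From nil pieces of the cohomology to nil projectors
-/

open CategoryTheory AlgebraicGeometry

universe u v w

namespace Pool.Agent.Zk50.SD

open Pool.Agent.H914 Pool.Agent.H914.VarClass Pool.Agent.H914.VarClass.Obj Pool.Agent.W492.BB
  Pool.Agent.W550.Corr Pool.Agent.TH133 Pool.Agent.Y107

set_option linter.unusedSectionVars false

variable {k : Type u} [Field k] {𝒱 : VarClass k} {C : TheoryData.{u, v, 0} 𝒱 ℚ}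
  [hC : IsChowProj C] {K : Type w} [Field K] {H : WeilTheoryData.{u, v, w} C K}
  [hH : IsWeilProj H] {X Y : 𝒱.Obj}

section ring

variable (C X)

/-- The transpose on the ring of self-correspondences of degree zero. -/
noncomputable def tr0 : cor0 C X →+ cor0 C X where
  toFun a := ⟨tpR C X a.1, tpR_mem a.2⟩
  map_zero' := Subtype.ext (map_zero _)
  map_add' _ _ := Subtype.ext (map_add _ _ _)

lemma tr0_coe (a : cor0 C X) : ((tr0 C X a : cor0 C X) : Cor C X) = tpR C X a := rfl

lemma tr0_antiInv : AntiInv (tr0 C X) where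
  mul _ _ := Subtype.ext (tpR_mul _ _)
  inv _ := Subtype.ext (tpR_tpR _)
  one := Subtype.ext tpR_one

variable (H)

/-- The action of the self-correspondences of degree zero on the cohomology. -/
noncomputable def act0 : cor0 C X →+* Module.End K (H.A X) :=
  (actH C X H).comp (cor0 C X).val.toRingHom

lemma act0_apply (a : cor0 C X) : act0 C H X a = actH C X H a.1 := rfl

variable {C X H}

lemma act0_eq_zero_iff {a : cor0 C X} :
    act0 C H X a = 0 ↔ H.cl (X := X.prod X) (a.1 : Cor C X) = 0 := by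
  constructor
  · intro h
    exact hom_zero_of_act H (X := X) (Y := X) (fun x => LinearMap.congr_fun h x)
  · intro h
    apply LinearMap.ext
    intro x
    rw [act0_apply, actH_apply, h, TheoryData.act_zero, LinearMap.zero_apply]

lemma act0_tr0 {a : cor0 C X} (h : act0 C H X a = 0) : act0 C H X (tr0 C X a) = 0 := by
  rw [act0_eq_zero_iff] at h ⊢
  have h1 : H.cl (X := X.prod X) ((tr0 C X a : cor0 C X) : Cor C X) =
      tp H.toTheoryData (H.cl (X := X.prod X) (a : Cor C X)) := cl_tp H (X := X) (Y := X) _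
  rw [h1, h, tp_zero]

lemma comp_comp_self (p γ : Cor C X) : C.comp (X := X) (Y := X) (Z := X)
    (C.comp (X := X) (Y := X) (Z := X) p γ) p = (p * γ * p : Cor C X) := (mul_assoc p γ p).symm

lemma nilAt_iff (p : cor0 C X) : NilAt (act0 C H X) p ↔ NilCor H (Y := X) (p : Cor C X) := by
  constructor
  · intro h γ hγ h0
    obtain ⟨n, hn⟩ := h ⟨γ, hγ⟩ (act0_eq_zero_iff.2 h0)
    refine ⟨n, ?_⟩
    have h1 := congrArg Subtype.val hn
    have h2 : C.comp (C.comp (p : Cor C X) γ) (p : Cor C X) =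
        ((p * ⟨γ, hγ⟩ * p : cor0 C X) : Cor C X) := comp_comp_self (p : Cor C X) γ
    rw [h2, corPow_eq]
    exact h1
  · intro h x hx
    obtain ⟨n, hn⟩ := h x.1 x.2 (act0_eq_zero_iff.1 hx)
    refine ⟨n, ?_⟩
    apply Subtype.ext
    have h2 : C.comp (C.comp (p : Cor C X) x.1) (p : Cor C X) =
        ((p * x * p : cor0 C X) : Cor C X) := comp_comp_self (p : Cor C X) x.1
    rw [h2, corPow_eq] at hn
    exact hn

end ring

include hC hH

omit hH in
lemma comp_sandwich {v : C.A (X.prod Y)} {u : C.A (Y.prod X)} {e y z yz : C.A (Y.prod Y)}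
    (huv : C.comp u v = e) (h4 : C.comp e z = z) (h7 : C.comp y z = yz) :
    C.comp (C.comp (C.comp v y) u) (C.comp (C.comp v z) u) = C.comp (C.comp v yz) u := by
  rw [comp_assoc C (C.comp v y) u, ← comp_assoc C u, ← comp_assoc C u v, huv, h4,
    ← comp_assoc C (C.comp v y), comp_assoc C v, h7]

/-- **Descent**: an idempotent map of the cohomology which factors through a nil motive is induced
by a nil projector. -/
theorem exists_nil_projector {P : H.A X → H.A X} (h : FactorsNil H X P)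
    (hP : ∀ x, P (P x) = P x) :
    ∃ q : cor0 C X, q * q = q ∧ NilAt (act0 C H X) q ∧ ∀ x, act0 C H X q x = P x := by
  obtain ⟨Y, e, p, a, b, hp, hpp, hnil, ha, hb, hact⟩ := h
  -- the corner of `Y`
  obtain ⟨p', hp'⟩ : ∃ p' : cor0 C Y, (p' : Cor C Y) = p := ⟨⟨p, hp⟩, rfl⟩
  have hp'p' : p' * p' = p' := by
    apply Subtype.ext
    change C.comp (X := Y) (Y := Y) (Z := Y) (p' : Cor C Y) (p' : Cor C Y) = (p' : Cor C Y)
    rw [hp', hpp]
  have hnil' : NilAt (act0 C H Y) p' := by
    rw [nilAt_iff, hp']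
    exact hnil
  obtain ⟨a', ha'⟩ : ∃ a', a' = C.comp a p := ⟨_, rfl⟩
  obtain ⟨b', hb'⟩ : ∃ b', b' = C.comp p b := ⟨_, rfl⟩
  have hp0 : p ∈ C.gr (Y.prod Y) (Y.dim + 0) := by rw [add_zero]; exact hp
  have hb0 : b ∈ C.gr (Y.prod X) (Y.dim + -e) := hb
  have ha'm : a' ∈ C.gr (X.prod Y) (X.dim + e) := by
    have := comp_mem C ha hp0
    rwa [← ha', add_zero] at this
  have hb'm : b' ∈ C.gr (Y.prod X) (Y.dim + -e) := by
    have := comp_mem C hp0 hb0
    rwa [← hb', zero_add] at this
  have ha'p : C.comp a' p = a' := by rw [ha', comp_assoc, hpp]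
  have hpb' : C.comp p b' = b' := by rw [hb', ← comp_assoc, hpp]
  have hTm : C.comp b' a' ∈ C.gr (Y.prod Y) Y.dim := by
    have := comp_mem C hb'm ha'm
    rwa [neg_add_cancel, add_zero] at this
  obtain ⟨T, hT⟩ : ∃ T : cor0 C Y, (T : Cor C Y) = C.comp b' a' := ⟨⟨C.comp b' a', hTm⟩, rfl⟩
  have hpT : p' * T = T := by
    apply Subtype.ext
    change C.comp (X := Y) (Y := Y) (Z := Y) (T : Cor C Y) (p' : Cor C Y) = (T : Cor C Y)
    rw [hp', hT, comp_assoc, ha'p]
  have hTp : T * p' = T := by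
    apply Subtype.ext
    change C.comp (X := Y) (Y := Y) (Z := Y) (p' : Cor C Y) (T : Cor C Y) = (T : Cor C Y)
    rw [hp', hT, ← comp_assoc, hpb']
  -- the cohomological action
  have hba : ∀ x, H.act (H.cl b') (H.act (H.cl a') x) = P x := by
    intro x
    rw [← actH_comp, ← hact x, ha', hb', comp_assoc, ← comp_assoc C p p b, hpp, ← comp_assoc]
  have hTact : ∀ y, act0 C H Y T y = H.act (H.cl a') (H.act (H.cl b') y) := by
    intro y
    rw [← actH_comp, ← hT]
    rfl
  have hT3 : act0 C H Y (T * T * T) = act0 C H Y (T * T) := by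
    apply LinearMap.ext
    intro y
    rw [map_mul, map_mul, Module.End.mul_apply, Module.End.mul_apply, Module.End.mul_apply,
      hTact, hTact, hTact, hba, hba, hP]
  obtain ⟨ε, w, hεε, hpε, hεp, hφε, hφw, hεw⟩ := exists_lift hnil' hpT hTp hT3
  -- the correspondences between `X` and `Y`
  obtain ⟨εc, hεc⟩ : ∃ εc : C.A (Y.prod Y), εc = ((ε : Cor C Y) : Cor C Y) := ⟨_, rfl⟩
  obtain ⟨wc, hwc⟩ : ∃ wc : C.A (Y.prod Y), wc = (((ε * w : cor0 C Y) : Cor C Y) : Cor C Y) :=
    ⟨_, rfl⟩
  obtain ⟨u, hu⟩ : ∃ u, u = C.comp εc b' := ⟨_, rfl⟩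
  obtain ⟨v, hv⟩ : ∃ v, v = C.comp a' wc := ⟨_, rfl⟩
  have hεcm : εc ∈ C.gr (Y.prod Y) (Y.dim + 0) := by rw [add_zero, hεc]; exact ε.2
  have hwcm : wc ∈ C.gr (Y.prod Y) (Y.dim + 0) := by rw [add_zero, hwc]; exact (ε * w).2
  have hum : u ∈ C.gr (Y.prod X) (Y.dim + -e) := by
    have := comp_mem C hεcm hb'm
    rwa [← hu, zero_add] at this
  have hvm : v ∈ C.gr (X.prod Y) (X.dim + e) := by
    have := comp_mem C ha'm hwcm
    rwa [← hv, add_zero] at this
  have huv : C.comp u v = εc := by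
    rw [hu, hv, comp_assoc, ← comp_assoc C b' a' wc, ← hT, hεc, hwc]
    have h1 := congrArg Subtype.val hεw
    have h2 : C.comp (X := Y) (Y := Y) (Z := Y) (ε : Cor C Y)
        (C.comp (X := Y) (Y := Y) (Z := Y) (T : Cor C Y) ((ε * w : cor0 C Y) : Cor C Y)) =
        ((ε * w * T * ε : cor0 C Y) : Cor C Y) := rfl
    rw [h2]
    exact h1
  have hεu : C.comp εc u = u := by
    rw [hu, ← comp_assoc]
    congr 1
    have h1 := congrArg Subtype.val hεε
    rw [hεc]
    exact h1
  have hqm : C.comp v u ∈ C.gr (X.prod X) X.dim := by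
    have := comp_mem C hvm hum
    rwa [add_neg_cancel, add_zero] at this
  obtain ⟨q, hq⟩ : ∃ q : cor0 C X, (q : Cor C X) = C.comp v u := ⟨⟨C.comp v u, hqm⟩, rfl⟩
  refine ⟨q, ?_, ?_, ?_⟩
  · apply Subtype.ext
    change C.comp (X := X) (Y := X) (Z := X) (q : Cor C X) (q : Cor C X) = (q : Cor C X)
    rw [hq, comp_assoc, ← comp_assoc C u v u, huv, hεu]
  · intro x hx
    obtain ⟨xc, hxc⟩ : ∃ xc : C.A (X.prod X), xc = ((x : Cor C X) : Cor C X) := ⟨_, rfl⟩
    have hxcm : xc ∈ C.gr (X.prod X) (X.dim + 0) := by rw [add_zero, hxc]; exact x.2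
    have hym : C.comp (C.comp u xc) v ∈ C.gr (Y.prod Y) Y.dim := by
      have := comp_mem C (comp_mem C hum hxcm) hvm
      rwa [show (Y.dim : ℤ) + (-e + 0 + e) = Y.dim by ring] at this
    obtain ⟨y, hy⟩ : ∃ y : cor0 C Y, (y : Cor C Y) = C.comp (C.comp u xc) v :=
      ⟨⟨C.comp (C.comp u xc) v, hym⟩, rfl⟩
    have hvp : C.comp v p = v := by
      rw [hv, comp_assoc]
      congr 1
      have h1 : p' * (ε * w) = ε * w := by rw [← mul_assoc, hpε]
      have h2 := congrArg Subtype.val h1
      rw [hwc, ← hp']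
      exact h2
    have hpu : C.comp p u = u := by
      rw [hu, ← comp_assoc]
      congr 1
      have h2 := congrArg Subtype.val hεp
      rw [hεc, ← hp']
      exact h2
    have hpy : p' * y = y := by
      apply Subtype.ext
      change C.comp (X := Y) (Y := Y) (Z := Y) (y : Cor C Y) (p' : Cor C Y) = (y : Cor C Y)
      rw [hp', hy, comp_assoc, hvp]
    have hyp : y * p' = y := by
      apply Subtype.ext
      change C.comp (X := Y) (Y := Y) (Z := Y) (p' : Cor C Y) (y : Cor C Y) = (y : Cor C Y)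
      rw [hp', hy, ← comp_assoc, ← comp_assoc, hpu]
    have hyε : y * ε = y := by
      apply Subtype.ext
      change C.comp (X := Y) (Y := Y) (Z := Y) (ε : Cor C Y) (y : Cor C Y) = (y : Cor C Y)
      rw [← hεc, hy, ← comp_assoc, ← comp_assoc, hεu]
    have hy0 : act0 C H Y y = 0 := by
      have hx0 := act0_eq_zero_iff.1 hx
      rw [← hxc] at hx0
      apply LinearMap.ext
      intro z
      have h1 : act0 C H Y y z = H.act (H.cl (C.comp (C.comp u xc) v)) z := by rw [← hy]; rfl
      rw [h1, actH_comp, actH_comp, hx0, TheoryData.act_zero, TheoryData.act_map_zero,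
        LinearMap.zero_apply]
    obtain ⟨n, hn⟩ := hnil' y hy0
    rw [hpy, hyp] at hn
    have key : ∀ m : ℕ, (((q * x * q) ^ (m + 1) : cor0 C X) : Cor C X) =
        (C.comp (C.comp v ((y ^ (m + 1) : cor0 C Y) : Cor C Y)) u : C.A (X.prod X)) := by
      intro m
      induction m with
      | zero =>
        rw [zero_add, pow_one, pow_one]
        change C.comp (X := X) (Y := X) (Z := X) (q : Cor C X)
          (C.comp (X := X) (Y := X) (Z := X) (x : Cor C X) (q : Cor C X)) = _
        rw [hq, hy, ← hxc]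
        simp only [comp_assoc]
      | succ m ih =>
        have h1 : ((q * x * q) ^ (m + 1 + 1) : cor0 C X) = (q * x * q) ^ (m + 1) * (q * x * q) :=
          pow_succ _ _
        have h2 : (((q * x * q) ^ (m + 1) * (q * x * q) : cor0 C X) : Cor C X) =
          C.comp (X := X) (Y := X) (Z := X) ((q * x * q : cor0 C X) : Cor C X)
            (((q * x * q) ^ (m + 1) : cor0 C X) : Cor C X) := rfl
        have h3 : ((q * x * q : cor0 C X) : Cor C X) =
            (C.comp (C.comp v ((y : cor0 C Y) : Cor C Y)) u : C.A (X.prod X)) := by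
          change C.comp (X := X) (Y := X) (Z := X) (q : Cor C X)
            (C.comp (X := X) (Y := X) (Z := X) (x : Cor C X) (q : Cor C X)) = _
          rw [hq, hy, ← hxc]
          simp only [comp_assoc]
        have h4 : C.comp (X := Y) (Y := Y) (Z := Y) εc ((y ^ (m + 1) : cor0 C Y) : Cor C Y) =
            ((y ^ (m + 1) : cor0 C Y) : Cor C Y) := by
          have h5 : y ^ (m + 1) * ε = y ^ (m + 1) := by rw [pow_succ, mul_assoc, hyε]
          have h6 := congrArg Subtype.val h5
          rw [hεc]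
          exact h6
        have h7 : C.comp (X := Y) (Y := Y) (Z := Y) ((y : cor0 C Y) : Cor C Y)
            ((y ^ (m + 1) : cor0 C Y) : Cor C Y) = ((y ^ (m + 1 + 1) : cor0 C Y) : Cor C Y) := by
          rw [pow_succ _ (m + 1)]
          rfl
        rw [h1, h2, h3, ih]
        exact comp_sandwich huv h4 h7
    refine ⟨n + 1, ?_⟩
    apply Subtype.ext
    have h8 := key n
    rw [pow_succ y n, hn, zero_mul] at h8
    refine h8.trans ?_
    have h9 : C.comp v (((0 : cor0 C Y) : Cor C Y)) = 0 := comp_zero C v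
    rw [h9, zero_comp]
    rfl
  · intro x
    have h1 : act0 C H X q x = H.act (H.cl (C.comp v u)) x := by rw [← hq]; rfl
    have h2 : ∀ y, H.act (H.cl wc) y = act0 C H Y T (act0 C H Y T y) := by
      intro y
      have h3 : H.act (H.cl wc) y = act0 C H Y (ε * w) y := by rw [hwc]; rfl
      rw [h3, map_mul, hφw, mul_one, hφε, map_mul, Module.End.mul_apply]
    have h4 : ∀ y, H.act (H.cl εc) y = act0 C H Y T (act0 C H Y T y) := by
      intro y
      have h3 : H.act (H.cl εc) y = act0 C H Y ε y := by rw [hεc]; rfl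
      rw [h3, hφε, map_mul, Module.End.mul_apply]
    rw [h1, actH_comp, hv, hu, actH_comp, actH_comp, h2, h4, hTact, hTact, hba, hba, hTact, hTact,
      hba, hba, hba, hP, hP, hP, hP]

end Pool.Agent.Zk50.SD
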