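import Mathlib

/-!
# Idempotents in rings with an involution: making them orthogonal to their transposes

`A` is an algebra over the rational numbers with an anti-involution `s`, and `φ : A → B` is a ring
homomorphism whose kernel is stable under `s`. An idempotent `p` is nil (`NilAt`) if all the elements
`p x p`, `φ x = 0`, are nilpotent.
-/

set_option autoImplicit false

open Polynomial

namespace Pool.Agent.Zk50.SD

variable {A B : Type*} [Ring A] [Algebra ℚ A] [Ring B]

/-- All the elements `p x p` with `φ x = 0` are nilpotent. -/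
def NilAt (φ : A →+* B) (p : A) : Prop := ∀ x, φ x = 0 → IsNilpotent (p * x * p)

/-- The polynomials approximating a solution of `1 - 2 c + X c ^ 2 = 0`. -/
noncomputable def apx : ℕ → ℚ[X]
  | 0 => 0
  | k + 1 => C (1 / 2) * (1 + X * apx k ^ 2)

lemma apx_dvd (k : ℕ) : X ^ k ∣ apx (k + 1) - apx k := by
  induction k with
  | zero => simp
  | succ k ih =>
    obtain ⟨r, hr⟩ := ih
    refine ⟨C (1 / 2) * r * (apx (k + 1) + apx k), ?_⟩
    have h1 : apx (k + 1 + 1) - apx (k + 1) =
        C (1 / 2) * (X * ((apx (k + 1) - apx k) * (apx (k + 1) + apx k))) := by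
      have e1 : apx (k + 1 + 1) = C (1 / 2) * (1 + X * apx (k + 1) ^ 2) := rfl
      have e2 : apx (k + 1) = C (1 / 2) * (1 + X * apx k ^ 2) := rfl
      rw [e1]
      conv_lhs => rw [show apx (k + 1) = apx (k + 1) from rfl]
      calc C (1 / 2) * (1 + X * apx (k + 1) ^ 2) - apx (k + 1)
          = C (1 / 2) * (1 + X * apx (k + 1) ^ 2) - C (1 / 2) * (1 + X * apx k ^ 2) := by
            rw [← e2]
        _ = _ := by ring
    rw [h1, hr]
    ring

/-- A polynomial in the nilpotent element `n` which solves `1 - 2 c + n c ^ 2 = 0`. -/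
lemma exists_root {n : A} (hn : IsNilpotent n) :
    ∃ q : ℚ[X], 1 - 2 * aeval n q + n * aeval n q ^ 2 = 0 := by
  obtain ⟨N, hN⟩ := hn
  refine ⟨apx N, ?_⟩
  obtain ⟨r, hr⟩ := apx_dvd N
  have h1 : (1 : ℚ[X]) - 2 * apx N + X * apx N ^ 2 = C 2 * (X ^ N * r) := by
    rw [← hr]
    have e2 : apx (N + 1) = C (1 / 2) * (1 + X * apx N ^ 2) := rfl
    rw [e2]
    have e3 : (C 2 : ℚ[X]) * C (1 / 2) = 1 := by rw [← C_mul]; norm_num
    have e4 : (C 2 : ℚ[X]) = 2 := rfl
    calc (1 : ℚ[X]) - 2 * apx N + X * apx N ^ 2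
        = 1 * (1 + X * apx N ^ 2) - 2 * apx N := by ring
      _ = C 2 * C (1 / 2) * (1 + X * apx N ^ 2) - C 2 * apx N := by rw [e3, e4]
      _ = _ := by ring
  have h2 := congrArg (aeval n) h1
  rw [map_add, map_sub, map_mul, map_mul, map_mul, map_mul, map_one, map_pow, map_pow, aeval_X,
    hN, zero_mul, mul_zero] at h2
  have h3 : aeval n (2 : ℚ[X]) = (2 : A) := map_ofNat (aeval n) 2
  rw [h3] at h2
  exact h2

omit [Algebra ℚ A] in
/-- Nil idempotents: transfer along an isomorphism of corners. -/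
lemma NilAt.transfer {φ : A →+* B} {p p' u v : A} (hp : NilAt φ p) (hvu : v * u = p)
    (huv : u * v = p') (hu : u * p = u) (hv : p * v = v) : NilAt φ p' := by
  intro x hx
  have hy : φ (v * x * u) = 0 := by rw [map_mul, map_mul, hx, mul_zero, zero_mul]
  obtain ⟨k, hk⟩ := hp _ hy
  have e0 : p * (v * x * u) * p = v * x * u := by
    rw [← mul_assoc, ← mul_assoc, hv, mul_assoc (v * x), hu]
  rw [e0] at hk
  refine ⟨k + 1, ?_⟩
  have h1 : ∀ k : ℕ, (p' * x * p') ^ (k + 1) = u * (v * x * u) ^ (k + 1) * v := by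
    intro k
    induction k with
    | zero =>
      rw [zero_add, pow_one, pow_one, ← huv]
      simp only [mul_assoc]
    | succ k ih =>
      rw [pow_succ, ih, pow_succ (v * x * u) (k + 1)]
      have e1 : v * (p' * x * p') = (v * x * u) * v := by
        rw [← huv]
        have : v * (u * v * x * (u * v)) = (v * u) * v * x * u * v := by simp only [mul_assoc]
        rw [this, hvu, hv]
      calc u * (v * x * u) ^ (k + 1) * v * (p' * x * p')
          = u * (v * x * u) ^ (k + 1) * (v * (p' * x * p')) := by simp only [mul_assoc]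
        _ = u * ((v * x * u) ^ (k + 1) * (v * x * u)) * v := by rw [e1]; simp only [mul_assoc]
  rw [h1, pow_succ, hk, zero_mul, mul_zero, zero_mul]

section inv

/-- An anti-involution. -/
structure AntiInv (s : A →+ A) : Prop where
  mul : ∀ a b, s (a * b) = s b * s a
  inv : ∀ a, s (s a) = a
  one : s 1 = 1

variable {s : A →+ A} {φ : A →+* B}

omit [Algebra ℚ A] in
lemma AntiInv.pow (hs : AntiInv s) (a : A) (n : ℕ) : s (a ^ n) = s a ^ n := by
  induction n with
  | zero => rw [pow_zero, pow_zero, hs.one]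
  | succ n ih => rw [pow_succ, hs.mul, ih, pow_succ']

lemma AntiInv.aeval (hs : AntiInv s) (a : A) (q : ℚ[X]) :
    s (aeval a q) = Polynomial.aeval (s a) q := by
  induction q using Polynomial.induction_on' with
  | add p q hp hq => rw [map_add, map_add, map_add, hp, hq]
  | monomial n c =>
    rw [aeval_monomial, aeval_monomial, Algebra.algebraMap_eq_smul_one, smul_mul_assoc, one_mul,
      smul_mul_assoc, one_mul, map_rat_smul, hs.pow]

/-- Intertwining. -/
lemma aeval_intertwine {β n n' : A} (h : β * n = n' * β) (q : ℚ[X]) :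
    β * Polynomial.aeval n q = Polynomial.aeval n' q * β := by
  induction q using Polynomial.induction_on' with
  | add p q hp hq => rw [map_add, map_add, mul_add, add_mul, hp, hq]
  | monomial k c =>
    have h1 : β * n ^ k = n' ^ k * β := by
      induction k with
      | zero => simp
      | succ k ih => rw [pow_succ, ← mul_assoc, ih, mul_assoc, h, ← mul_assoc, ← pow_succ]
    rw [aeval_monomial, aeval_monomial, ← mul_assoc, ← Algebra.commutes, mul_assoc, h1, ← mul_assoc]

/-- **One step**: a nil idempotent orthogonal to its transpose modulo the kernel can be replaced by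
one which is orthogonal to its transpose. -/
theorem exists_isotropic (hs : AntiInv s) {p : A}
    (hp : p * p = p) (h1 : φ (s p * p) = 0) (h2 : φ (p * s p) = 0) (hnil : NilAt φ p) :
    ∃ π : A, π * π = π ∧ s π * π = 0 ∧ π * s π = 0 ∧ φ π = φ p ∧
      (∃ x y, π = p * x + s p * y) ∧ (∃ x y, π = x * p + y * s p) := by
  obtain ⟨n, hn⟩ : ∃ n, n = p * s p * p := ⟨_, rfl⟩
  have hnn : IsNilpotent n := by
    have := hnil (s p * p) h1
    have e1 : p * (s p * p) * p = n := by
      rw [hn, mul_assoc, mul_assoc, hp, mul_assoc]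
    rwa [e1] at this
  obtain ⟨q, hq⟩ := exists_root hnn
  obtain ⟨c, hc⟩ : ∃ c, c = aeval n q := ⟨_, rfl⟩
  rw [← hc] at hq
  have hcn : n * c = c * n := by
    rw [hc]; exact aeval_intertwine (β := n) (n := n) (n' := n) rfl q
  have hpn : p * n = n := by rw [hn, ← mul_assoc, ← mul_assoc, hp]
  have hnp : n * p = n := by rw [hn, mul_assoc, hp]
  have hpc : p * c = c * p := by rw [hc]; exact aeval_intertwine (by rw [hpn, hnp]) q
  obtain ⟨n', hn'⟩ : ∃ n', n' = s p * p * s p := ⟨_, rfl⟩
  have hsn : s n = n' := by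
    rw [hn, hs.mul, hs.mul, hs.inv, hn', mul_assoc]
  obtain ⟨c', hc'⟩ : ∃ c', c' = aeval n' q := ⟨_, rfl⟩
  have hsc : s c = c' := by rw [hc, hs.aeval, hsn, hc']
  have hsp : s p * s p = s p := by rw [← hs.mul, hp]
  -- the Gram elements
  obtain ⟨β, hβ⟩ : ∃ β, β = s p * p := ⟨_, rfl⟩
  obtain ⟨γ, hγ⟩ : ∃ γ, γ = p * s p := ⟨_, rfl⟩
  rw [← hβ] at h1
  rw [← hγ] at h2
  have hsβ : s β = β := by rw [hβ, hs.mul, hs.inv]
  have hsγ : s γ = γ := by rw [hγ, hs.mul, hs.inv]
  have hβn : β * n = n' * β := by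
    rw [hβ, hn, hn']
    calc s p * p * (p * s p * p) = s p * (p * p) * s p * p := by simp only [mul_assoc]
      _ = s p * p * (s p * s p) * p := by rw [hp, hsp]
      _ = _ := by simp only [mul_assoc]
  have hγn : γ * n' = n * γ := by
    rw [hγ, hn, hn']
    calc p * s p * (s p * p * s p) = p * (s p * s p) * p * s p := by simp only [mul_assoc]
      _ = p * s p * (p * p) * s p := by rw [hp, hsp]
      _ = _ := by simp only [mul_assoc]
  have hβc : β * c = c' * β := by rw [hc, hc']; exact aeval_intertwine hβn q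
  have hγc : γ * c' = c * γ := by rw [hc, hc']; exact aeval_intertwine hγn q
  have hββ : β * β = β * n := by
    have e1 : β * p = β := by rw [hβ, mul_assoc, hp]
    calc β * β = β * s p * p := by rw [hβ]; simp only [mul_assoc]
      _ = β * p * s p * p := by rw [e1]
      _ = β * n := by rw [hn]; simp only [mul_assoc]
  have hγγ : γ * γ = γ * n' := by
    have e1 : γ * s p = γ := by rw [hγ, mul_assoc, hsp]
    calc γ * γ = γ * p * s p := by rw [hγ]; simp only [mul_assoc]
      _ = γ * s p * p * s p := by rw [e1]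
      _ = γ * n' := by rw [hn']; simp only [mul_assoc]
  have hpβ : p * β = n := by rw [hβ, hn, mul_assoc]
  have hγp : γ * p = n := by rw [hγ, hn]
  have hγβ : γ * β = n := by
    rw [hγ, hβ, hn]
    calc p * s p * (s p * p) = p * (s p * s p) * p := by simp only [mul_assoc]
      _ = _ := by rw [hsp]
  have hq' : 1 - 2 * c' + n' * c' ^ 2 = 0 := by
    have := congrArg s hq
    rw [map_add, map_sub, hs.one, map_zero, hs.mul, hs.mul, hs.pow, hsc, hsn] at this
    have h2' : s 2 = 2 := by
      have : (2 : A) = 1 + 1 := by norm_num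
      rw [this, map_add, hs.one]
    have hcn' : n' * c' = c' * n' := by rw [hc']; exact aeval_intertwine (β := n') rfl q
    rw [h2'] at this
    have e1 : c' ^ 2 * n' = n' * c' ^ 2 := by
      rw [pow_two, mul_assoc, ← hcn', ← mul_assoc, ← hcn', mul_assoc]
    have e2 : c' * 2 = 2 * c' := by rw [two_mul, mul_two]
    rw [e1, e2] at this
    exact this
  -- the isotropic embedding and projection
  obtain ⟨u, hu⟩ : ∃ u, u = p - β * c := ⟨_, rfl⟩
  obtain ⟨w, hw⟩ : ∃ w, w = p - c * γ := ⟨_, rfl⟩
  have hsu : s u = s p - c' * β := by rw [hu, map_sub, hs.mul, hsβ, hsc]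
  have hsw : s w = s p - γ * c' := by rw [hw, map_sub, hs.mul, hsγ, hsc]
  have huu : s u * u = 0 := by
    rw [hsu, hu, mul_sub, sub_mul, sub_mul]
    have e1 : s p * p = β := hβ.symm
    have e2 : c' * β * p = c' * β := by rw [hβ, mul_assoc, mul_assoc, hp]
    have e3 : s p * (β * c) = β * c := by rw [hβ, ← mul_assoc, ← mul_assoc, hsp]
    have e4 : c' * β * (β * c) = β * n * c ^ 2 := by
      calc c' * β * (β * c) = c' * (β * β) * c := by simp only [mul_assoc]
        _ = c' * β * (n * c) := by rw [hββ]; simp only [mul_assoc]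
        _ = β * c * (n * c) := by rw [← hβc]
        _ = β * (c * n) * c := by simp only [mul_assoc]
        _ = β * n * c ^ 2 := by rw [← hcn, pow_two]; simp only [mul_assoc]
    rw [e1, e2, e3, e4, ← hβc]
    have h0 := congrArg (fun z => β * z) hq
    simp only [mul_zero] at h0
    rw [mul_add, mul_sub, mul_one, ← mul_assoc β n, show β * (2 * c) = β * c + β * c by
      rw [two_mul, mul_add]] at h0
    rw [← h0]
    abel
  have hww : w * s w = 0 := by
    rw [hsw, hw, mul_sub, sub_mul, sub_mul]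
    have e1 : p * s p = γ := hγ.symm
    have e2 : c * γ * s p = c * γ := by rw [hγ, mul_assoc, mul_assoc, hsp]
    have e3 : p * (γ * c') = γ * c' := by rw [hγ, ← mul_assoc, ← mul_assoc, hp]
    have hcn' : n' * c' = c' * n' := by rw [hc']; exact aeval_intertwine (β := n') rfl q
    have e4 : c * γ * (γ * c') = γ * n' * c' ^ 2 := by
      calc c * γ * (γ * c') = c * (γ * γ) * c' := by simp only [mul_assoc]
        _ = c * γ * (n' * c') := by rw [hγγ]; simp only [mul_assoc]
        _ = γ * c' * (n' * c') := by rw [← hγc]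
        _ = γ * (c' * n') * c' := by simp only [mul_assoc]
        _ = γ * n' * c' ^ 2 := by rw [← hcn', pow_two]; simp only [mul_assoc]
    rw [e1, e2, e3, e4, ← hγc]
    have h0 := congrArg (fun z => γ * z) hq'
    simp only [mul_zero] at h0
    rw [mul_add, mul_sub, mul_one, ← mul_assoc γ n', show γ * (2 * c') = γ * c' + γ * c' by
      rw [two_mul, mul_add]] at h0
    rw [← h0]
    abel
  -- the unit
  have hm : IsNilpotent (n * (2 * c - c ^ 2)) := by
    have hcomm : Commute n (2 * c - c ^ 2) := by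
      have h3 : Commute n c := hcn
      exact (((Nat.cast_commute 2 n).symm.mul_right h3).sub_right (h3.pow_right 2))
    exact hcomm.isNilpotent_mul_right hnn
  have hunit : IsUnit (1 - n * (2 * c - c ^ 2)) := hm.isUnit_one_sub
  obtain ⟨z, hz⟩ := hunit
  obtain ⟨a, ha⟩ : ∃ a : A, a = (↑z⁻¹ : A) := ⟨_, rfl⟩
  have haz : a * (1 - n * (2 * c - c ^ 2)) = 1 := by rw [ha, ← hz, Units.inv_mul]
  have hwu : w * u = (1 - n * (2 * c - c ^ 2)) * p := by
    rw [hw, hu, mul_sub, sub_mul, sub_mul, hp]
    have e2 : c * γ * p = c * n := by rw [mul_assoc, hγp]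
    have e3 : p * (β * c) = n * c := by rw [← mul_assoc, hpβ]
    have e4 : c * γ * (β * c) = n * c ^ 2 := by
      calc c * γ * (β * c) = c * (γ * β) * c := by simp only [mul_assoc]
        _ = n * c ^ 2 := by rw [hγβ, ← hcn, mul_assoc, pow_two]
    have e5 : n * c * p = n * c := by rw [mul_assoc, ← hpc, ← mul_assoc, hnp]
    have e6 : n * c ^ 2 * p = n * c ^ 2 := by
      rw [pow_two, ← mul_assoc, mul_assoc (n * c), ← hpc, ← mul_assoc, e5]
    rw [e2, e3, e4, sub_mul, one_mul, mul_sub, sub_mul, e6, show n * (2 * c) = n * c + n * c by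
      rw [two_mul, mul_add], add_mul, e5, ← hcn]
    abel
  obtain ⟨v, hv⟩ : ∃ v, v = a * w := ⟨_, rfl⟩
  have hvu : v * u = p := by
    rw [hv, mul_assoc, hwu, ← mul_assoc, haz, one_mul]
  have hup : u * p = u := by
    rw [hu, sub_mul, hp, mul_assoc, ← hpc, ← mul_assoc, hβ, mul_assoc (s p), hp]
  refine ⟨u * v, ?_, ?_, ?_, ?_, ?_, ?_⟩
  · calc u * v * (u * v) = u * (v * u) * v := by simp only [mul_assoc]
      _ = u * v := by rw [hvu, hup]
  · calc s (u * v) * (u * v) = s v * (s u * u) * v := by rw [hs.mul]; simp only [mul_assoc]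
      _ = 0 := by rw [huu, mul_zero, zero_mul]
  · have h5 : v * s v = 0 := by
      rw [hv, hs.mul, mul_assoc, ← mul_assoc w, hww, zero_mul, mul_zero]
    calc u * v * s (u * v) = u * (v * s v) * s u := by rw [hs.mul]; simp only [mul_assoc]
      _ = 0 := by rw [h5, mul_zero, zero_mul]
  · have f1 : φ n = 0 := by rw [← hpβ, map_mul, h1, mul_zero]
    have f2 : 2 * φ c = 1 := by
      have := congrArg φ hq
      rw [map_add, map_sub, map_one, map_mul, map_mul, f1, zero_mul, add_zero, map_zero,
        map_ofNat, sub_eq_zero] at this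
      exact this.symm
    have f3 : φ u = φ p := by rw [hu, map_sub, map_mul, h1, zero_mul, sub_zero]
    have f4 : φ w = φ p := by rw [hw, map_sub, map_mul, h2, mul_zero, sub_zero]
    have f5 : φ a = 1 := by
      have := congrArg φ haz
      rw [map_mul, map_sub, map_one, map_mul, f1, zero_mul, sub_zero, mul_one] at this
      exact this
    rw [map_mul, f3, hv, map_mul, f5, one_mul, f4, ← map_mul, hp]
  · refine ⟨v, -(p * c * v), ?_⟩
    rw [hu, sub_mul, hβ]
    simp only [mul_assoc, mul_neg]
    abel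
  · refine ⟨u * a, -(u * a * c * p), ?_⟩
    rw [hv, hw, hγ]
    simp only [mul_assoc, mul_sub, neg_mul]
    abel

/-- **The family version**: pairwise orthogonal (modulo the kernel) nil idempotents, which are also
orthogonal to all transposes modulo the kernel, can be made orthogonal to each other and to all
the transposes. -/
theorem exists_family (hs : AntiInv s) (hφs : ∀ x, φ x = 0 → φ (s x) = 0) (k : ℕ) : ∀ (e : A) (p : ℕ → A), e * e = e → s e = e →
    (∀ i < k, p i * p i = p i ∧ e * p i = p i ∧ p i * e = p i ∧ NilAt φ (p i)) →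
    (∀ i < k, ∀ j < k, i ≠ j → φ (p i * p j) = 0) →
    (∀ i < k, ∀ j < k, φ (s (p i) * p j) = 0 ∧ φ (p i * s (p j)) = 0) →
    ∃ π : ℕ → A, (∀ i < k, π i * π i = π i ∧ e * π i = π i ∧ π i * e = π i ∧
        φ (π i) = φ (p i)) ∧
      (∀ i < k, ∀ j < k, i ≠ j → π i * π j = 0) ∧
      (∀ i < k, ∀ j < k, s (π i) * π j = 0 ∧ π i * s (π j) = 0) := by
  induction k with
  | zero =>
    intro e p _ _ _ _ _
    exact ⟨fun _ => 0, by simp, by simp, by simp⟩
  | succ k ih =>
    intro e p he hse h1 h2 h3
    obtain ⟨hp, hep, hpe, hnil⟩ := h1 0 (Nat.succ_pos k)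
    obtain ⟨π₀, hπ, hsπ, hπs, hφπ, ⟨x, y, hxy⟩, ⟨x', y', hxy'⟩⟩ :=
      exists_isotropic hs hp (h3 0 (Nat.succ_pos k) 0 (Nat.succ_pos k)).1
        (h3 0 (Nat.succ_pos k) 0 (Nat.succ_pos k)).2 hnil
    have hesp : e * s (p 0) = s (p 0) := by
      conv_lhs => rw [← hse]
      rw [← hs.mul, hpe]
    have hspe : s (p 0) * e = s (p 0) := by
      conv_lhs => rw [← hse]
      rw [← hs.mul, hep]
    have heπ : e * π₀ = π₀ := by
      rw [hxy, mul_add, ← mul_assoc, ← mul_assoc, hep, hesp]
    have hπe : π₀ * e = π₀ := by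
      rw [hxy', add_mul, mul_assoc, mul_assoc, hpe, hspe]
    have hesπ : e * s π₀ = s π₀ := by
      conv_lhs => rw [← hse]
      rw [← hs.mul, hπe]
    have hsπe : s π₀ * e = s π₀ := by
      conv_lhs => rw [← hse]
      rw [← hs.mul, heπ]
    have hsπsπ : s π₀ * s π₀ = s π₀ := by rw [← hs.mul, hπ]
    -- the complement
    obtain ⟨e', he'⟩ : ∃ e', e' = e - π₀ - s π₀ := ⟨_, rfl⟩
    have hπe' : π₀ * e' = 0 := by rw [he', mul_sub, mul_sub, hπe, hπ, hπs]; abel
    have he'π : e' * π₀ = 0 := by rw [he', sub_mul, sub_mul, heπ, hπ, hsπ]; abel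
    have hse' : s e' = e' := by rw [he', map_sub, map_sub, hse, hs.inv]; abel
    have hsπe' : s π₀ * e' = 0 := by
      have := congrArg s he'π
      rwa [hs.mul, map_zero, hse'] at this
    have he'sπ : e' * s π₀ = 0 := by
      have := congrArg s hπe'
      rwa [hs.mul, map_zero, hse'] at this
    have hee' : e * e' = e' := by rw [he', mul_sub, mul_sub, he, heπ, hesπ]
    have he'e : e' * e = e' := by rw [he', sub_mul, sub_mul, he, hπe, hsπe]
    have he'e' : e' * e' = e' := by
      have e1 : (e - π₀ - s π₀) * e' = e * e' - π₀ * e' - s π₀ * e' := by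
        rw [sub_mul, sub_mul]
      rw [← he', hee', hπe', hsπe', sub_zero, sub_zero] at e1
      exact e1
    -- the new idempotents
    have hnew : ∀ i, i < k → ∃ p' : A, p' * p' = p' ∧ e' * p' = p' ∧ p' * e' = p' ∧ NilAt φ p' ∧
        φ p' = φ (p (i + 1)) := by
      intro i hi
      have hi1 : i + 1 < k + 1 := Nat.succ_lt_succ hi
      obtain ⟨hq, heq, hqe, hqnil⟩ := h1 (i + 1) hi1
      obtain ⟨q, hqdef⟩ : ∃ q, q = p (i + 1) := ⟨_, rfl⟩
      rw [← hqdef] at hq heq hqe hqnil ⊢
      have f1 : φ (π₀ * q) = 0 := by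
        rw [map_mul, hφπ, ← map_mul, hqdef]; exact h2 0 (Nat.succ_pos k) _ hi1 (by omega)
      have f2 : φ (q * π₀) = 0 := by
        rw [map_mul, hφπ, ← map_mul, hqdef]; exact h2 _ hi1 0 (Nat.succ_pos k) (by omega)
      have f3 : φ (s π₀ * q) = 0 := by
        have e1 : s π₀ = s x' * 0 + s π₀ := by rw [mul_zero, zero_add]
        -- `s π₀` is a combination of `s p` and `p`
        have e2 : s π₀ = s y * p 0 + s x * s (p 0) := by
          rw [hxy, map_add, hs.mul, hs.mul, hs.inv]; abel
        rw [e2, add_mul, map_add, mul_assoc, mul_assoc, map_mul, map_mul φ (s x), hqdef,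
          h2 0 (Nat.succ_pos k) _ hi1 (by omega), (h3 0 (Nat.succ_pos k) _ hi1).1, mul_zero,
          mul_zero, add_zero]
      have f4 : φ (q * s π₀) = 0 := by
        have e2 : s π₀ = s (p 0) * s x' + p 0 * s y' := by
          rw [hxy', map_add, hs.mul, hs.mul, hs.inv]
        rw [e2, mul_add, map_add, ← mul_assoc, ← mul_assoc, map_mul, map_mul φ _ (s y'), hqdef,
          h2 _ hi1 0 (Nat.succ_pos k) (by omega), (h3 _ hi1 0 (Nat.succ_pos k)).2, zero_mul,
          zero_mul, add_zero]
      have g1 : φ (e' * q) = φ q := by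
        rw [he', sub_mul, sub_mul, heq, map_sub, map_sub, f1, f3, sub_zero, sub_zero]
      have g2 : φ (q * e') = φ q := by
        rw [he', mul_sub, mul_sub, hqe, map_sub, map_sub, f2, f4, sub_zero, sub_zero]
      -- the nilpotent element
      obtain ⟨m, hm⟩ : ∃ m, m = q - q * e' * q := ⟨_, rfl⟩
      have hφm : φ m = 0 := by
        rw [hm, map_sub, map_mul, g2, ← map_mul, hq, sub_self]
      have hqm : q * m = m := by rw [hm, mul_sub, hq, ← mul_assoc, ← mul_assoc, hq]
      have hmq : m * q = m := by rw [hm, sub_mul, hq, mul_assoc, hq]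
      have hmn : IsNilpotent m := by
        have := hqnil m hφm
        rwa [hqm, hmq] at this
      obtain ⟨z, hz⟩ := hmn.isUnit_one_sub
      obtain ⟨w, hw⟩ : ∃ w : A, w = (↑z⁻¹ : A) := ⟨_, rfl⟩
      have hwz : w * (1 - m) = 1 := by rw [hw, ← hz, Units.inv_mul]
      have hzw : (1 - m) * w = 1 := by rw [hw, ← hz, Units.mul_inv]
      have hwq : w * q = q * w := by
        have e3 : (1 - m) * q = q * (1 - m) := by rw [sub_mul, mul_sub, hqm, hmq, one_mul, mul_one]
        calc w * q = w * (q * ((1 - m) * w)) := by rw [hzw, mul_one]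
          _ = w * ((q * (1 - m)) * w) := by rw [mul_assoc q]
          _ = w * (((1 - m) * q) * w) := by rw [e3]
          _ = (w * (1 - m)) * (q * w) := by simp only [mul_assoc]
          _ = q * w := by rw [hwz, one_mul]
      have hφw : φ w = 1 := by
        have := congrArg φ hwz
        rw [map_mul, map_sub, map_one, hφm, sub_zero, mul_one] at this
        exact this
      have hqeq : q * e' * q = (1 - m) * q := by rw [sub_mul, one_mul, hmq, hm]; abel
      have hvu : (w * q * e') * (e' * q) = q := by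
        calc (w * q * e') * (e' * q) = w * (q * (e' * e') * q) := by simp only [mul_assoc]
          _ = w * ((1 - m) * q) := by rw [he'e', hqeq]
          _ = q := by rw [← mul_assoc, hwz, one_mul]
      refine ⟨(e' * q) * (w * q * e'), ?_, ?_, ?_, ?_, ?_⟩
      · calc (e' * q) * (w * q * e') * ((e' * q) * (w * q * e'))
            = (e' * q) * ((w * q * e') * (e' * q)) * (w * q * e') := by simp only [mul_assoc]
          _ = e' * (q * q) * (w * q * e') := by rw [hvu, mul_assoc e']
          _ = _ := by rw [hq]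
      · rw [← mul_assoc e', ← mul_assoc e', he'e']
      · calc (e' * q) * (w * q * e') * e' = (e' * q) * (w * q * (e' * e')) := by
              simp only [mul_assoc]
          _ = _ := by rw [he'e']
      · refine NilAt.transfer hqnil hvu rfl ?_ ?_
        · rw [mul_assoc, hq]
        · calc q * (w * q * e') = (q * w) * q * e' := by simp only [mul_assoc]
            _ = w * (q * q) * e' := by rw [← hwq]; simp only [mul_assoc]
            _ = _ := by rw [hq]
      · rw [map_mul, g1, mul_assoc w, map_mul φ w, hφw, one_mul, ← map_mul, ← mul_assoc, hq, g2]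
    choose! p' hp'1 hp'2 hp'3 hp'4 hp'5 using hnew
    obtain ⟨π, i1, i2, i3⟩ := ih e' p' he'e' hse'
      (fun i hi => ⟨hp'1 i hi, hp'2 i hi, hp'3 i hi, hp'4 i hi⟩)
      (fun i hi j hj hij => by
        rw [map_mul, hp'5 i hi, hp'5 j hj, ← map_mul]
        exact h2 _ (by omega) _ (by omega) (by omega)) (by
      intro i hi j hj
      have key : ∀ i, i < k → φ (s (p' i)) = φ (s (p (i + 1))) := by
        intro i hi
        rw [← sub_eq_zero, ← map_sub, ← map_sub]
        apply hφs
        rw [map_sub, hp'5 i hi, sub_self]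
      rw [map_mul, map_mul φ (p' i), hp'5 i hi, hp'5 j hj, key i hi, key j hj, ← map_mul,
        ← map_mul]
      exact h3 _ (by omega) _ (by omega))
    obtain ⟨R, hR0, hRs⟩ : ∃ R : ℕ → A, R 0 = π₀ ∧ ∀ n, R (n + 1) = π n :=
      ⟨fun n => Nat.casesOn n π₀ π, rfl, fun _ => rfl⟩
    have hsπ' : ∀ i, i < k → s (π i) * e' = s (π i) ∧ e' * s (π i) = s (π i) := by
      intro i hi
      obtain ⟨-, j1, j2, -⟩ := i1 i hi
      constructor
      · conv_lhs => rw [← hse', ← hs.mul, j1]
      · conv_lhs => rw [← hse', ← hs.mul, j2]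
    refine ⟨R, ?_, ?_, ?_⟩
    · intro i hi
      rcases Nat.eq_zero_or_eq_succ_pred i with rfl | h
      · rw [hR0]
        exact ⟨hπ, heπ, hπe, hφπ⟩
      · obtain ⟨n, rfl⟩ : ∃ n, i = n + 1 := ⟨_, h⟩
        have hn : n < k := by omega
        rw [hRs]
        obtain ⟨j0, j1, j2, j3⟩ := i1 n hn
        refine ⟨j0, ?_, ?_, ?_⟩
        · rw [← j1, ← mul_assoc, hee']
        · rw [← j2, mul_assoc, he'e]
        · rw [j3, hp'5 n hn]
    · intro i hi j hj hij
      rcases Nat.eq_zero_or_eq_succ_pred i with rfl | h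
      · rcases Nat.eq_zero_or_eq_succ_pred j with rfl | h'
        · exact absurd rfl hij
        · obtain ⟨n, rfl⟩ : ∃ n, j = n + 1 := ⟨_, h'⟩
          rw [hR0, hRs, ← (i1 n (by omega)).2.1, ← mul_assoc, hπe', zero_mul]
      · obtain ⟨n, rfl⟩ : ∃ n, i = n + 1 := ⟨_, h⟩
        rcases Nat.eq_zero_or_eq_succ_pred j with rfl | h'
        · rw [hR0, hRs, ← (i1 n (by omega)).2.2.1, mul_assoc, he'π, mul_zero]
        · obtain ⟨n', rfl⟩ : ∃ n, j = n + 1 := ⟨_, h'⟩
          rw [hRs, hRs]
          exact i2 n (by omega) n' (by omega) (by omega)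
    · intro i hi j hj
      rcases Nat.eq_zero_or_eq_succ_pred i with rfl | h
      · rcases Nat.eq_zero_or_eq_succ_pred j with rfl | h'
        · rw [hR0]
          exact ⟨hsπ, hπs⟩
        · obtain ⟨n, rfl⟩ : ∃ n, j = n + 1 := ⟨_, h'⟩
          rw [hR0, hRs]
          constructor
          · rw [← (i1 n (by omega)).2.1, ← mul_assoc, hsπe', zero_mul]
          · rw [← (hsπ' n (by omega)).2, ← mul_assoc, hπe', zero_mul]
      · obtain ⟨n, rfl⟩ : ∃ n, i = n + 1 := ⟨_, h⟩
        rcases Nat.eq_zero_or_eq_succ_pred j with rfl | h'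
        · rw [hR0, hRs]
          constructor
          · rw [← (hsπ' n (by omega)).1, mul_assoc, he'π, mul_zero]
          · rw [← (i1 n (by omega)).2.2.1, mul_assoc, he'sπ, mul_zero]
        · obtain ⟨n', rfl⟩ : ∃ n, j = n + 1 := ⟨_, h'⟩
          rw [hRs, hRs]
          exact i3 n (by omega) n' (by omega)

end inv

end Pool.Agent.Zk50.SD
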